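import Mathlib
import Pool.Agent.Helper7.HL.Stmts

/-!
# Row CI: `c_lambda` at the inverse parameters
-/

namespace Pool.Agent.Helper63.HL

open Finset
open Pool.Agent.Helper7.HL Pool.Agent.Helper32.HG

theorem ci_cell {K : Type} [Field K] (q t : K) (hq : q ≠ 0) (ht : t ≠ 0) (a l : ℕ) :
    (1 - t⁻¹ * q⁻¹ ^ a * t⁻¹ ^ l) * q ^ a * t ^ (l + 1) = (-1) * (1 - t * q ^ a * t ^ l) := by
  have h1 : q ^ a ≠ 0 := pow_ne_zero _ hq
  have h2 : t ^ l ≠ 0 := pow_ne_zero _ ht
  rw [inv_pow, inv_pow, pow_succ]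
  field_simp
  ring

theorem st_CI : ST_CI := by
  intro K _ q t cs hq ht
  induction cs with
  | nil => simp [clf, armS, legS]
  | cons k cs ih =>
    have h1 : clf q⁻¹ t⁻¹ (k :: cs) * q ^ armS (k :: cs) * t ^ legS (k :: cs)
        = (∏ i : Fin k, ((1 - t⁻¹ * q⁻¹ ^ (rowl k cs i) * t⁻¹ ^ (dl k i)) *
            q ^ (rowl k cs i) * t ^ (dl k i + 1))) *
          (clf q⁻¹ t⁻¹ cs * q ^ armS cs * t ^ legS cs) := by
      simp only [clf, armS, legS]
      rw [pow_add, pow_add, prod_mul_distrib, prod_mul_distrib, prod_pow_eq_pow_sum,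
        prod_pow_eq_pow_sum]
      ring
    rw [h1, ih, prod_congr rfl (fun i _ => ci_cell q t hq ht (rowl k cs i) (dl k i)),
      prod_mul_distrib, prod_const, card_univ, Fintype.card_fin]
    simp only [clf, List.sum_cons]
    rw [pow_add]
    ring

end Pool.Agent.Helper63.HL
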