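import Mathlib
import Pool.Agent.Helper7.HL.Stmts

/-!
# Row INV: the Macdonald family for the inverse parameters
-/

namespace Pool.Agent.Helper63.HL

open Finset MvPolynomial
open Pool.Agent.Helper7.HL Pool.Agent.Helper32.HG

theorem inv_ratio {K : Type} [Field K] (q t : K) (hq : q ≠ 0) (ht : t ≠ 0) (m : ℕ) :
    (1 - q⁻¹ ^ m) / (1 - t⁻¹ ^ m) = (t / q) ^ m * ((1 - q ^ m) / (1 - t ^ m)) := by
  have h1 : q ^ m ≠ 0 := pow_ne_zero _ hq
  have h2 : t ^ m ≠ 0 := pow_ne_zero _ ht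
  rw [inv_pow, inv_pow, div_pow]
  have e1 : 1 - (q ^ m)⁻¹ = -(1 - q ^ m) / q ^ m := by
    field_simp
    ring
  have e2 : 1 - (t ^ m)⁻¹ = -(1 - t ^ m) / t ^ m := by
    field_simp
    ring
  rw [e1, e2, div_div_div_eq, neg_mul, mul_neg, neg_div_neg_eq, mul_comm (q ^ m) (1 - t ^ m),
    div_mul_div_comm, mul_comm (1 - q ^ m), mul_comm (1 - t ^ m)]

theorem inv_zqt {n : ℕ} {K : Type} [Field K] (q t : K) (hq : q ≠ 0) (ht : t ≠ 0)
    (d : Fin n → ℕ) (hd : ∑ i : Fin n, (i.val + 1) * d i = n) :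
    zqt q⁻¹ t⁻¹ d = (t / q) ^ n * zqt q t d := by
  unfold zqt
  have h1 : (t / q) ^ n = ∏ i : Fin n, ((t / q) ^ (i.val + 1)) ^ d i := by
    have h0 : (t / q) ^ (∑ i : Fin n, (i.val + 1) * d i)
        = ∏ i : Fin n, ((t / q) ^ (i.val + 1)) ^ d i := by
      rw [← prod_pow_eq_pow_sum]
      apply prod_congr rfl
      intro i _
      rw [← pow_mul]
    rw [hd] at h0
    exact h0
  rw [h1, ← prod_mul_distrib]
  apply prod_congr rfl
  intro i _
  rw [inv_ratio q t hq ht, mul_pow]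
  ring

theorem st_INV : ST_INV := by
  intro K _ n q t hq ht P hP
  refine ⟨hP.tri, ?_⟩
  intro lam hl mu hm hne
  obtain ⟨a, b, h1, h2, h3⟩ := hP.orth lam hl mu hm hne
  refine ⟨a, b, h1, h2, ?_⟩
  have h4 : ∑ d ∈ cyc n, a d * b d * zqt q⁻¹ t⁻¹ d
      = (t / q) ^ n * ∑ d ∈ cyc n, a d * b d * zqt q t d := by
    rw [mul_sum]
    apply sum_congr rfl
    intro d hd
    have h5 : ∑ i : Fin n, (i.val + 1) * d i = n := by
      unfold cyc at hd
      exact (mem_filter.1 hd).2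
    rw [inv_zqt q t hq ht d h5]
    ring
  rw [h4, h3, mul_zero]

end Pool.Agent.Helper63.HL
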